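import Pool.Agent.Helper27.AD.Stmts
import Pool.Agent.Helper68.ZL.VALU
import Pool.Agent.Helper26.ZL.DIVC

/-! # AdelicSections: the core argument over the CM field -/

set_option autoImplicit false

open scoped Classical

namespace Pool.Agent.Helper27.AD

open Pool.Agent.Helper14.BSC Pool.Agent.Helper13.ZL NumberField
open IsDedekindDomain FractionalIdeal nonZeroDivisors

theorem cor_fin (k : Type) [Field k] [NumberField k] (x : k) (hx : x ≠ 0) :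
    {v : Pl k | v.valuation k x ≠ 1}.Finite := by
  refine (Filter.eventually_cofinite.1 (finite_factors (K := k)
    (spanSingleton (RingOfIntegers k)⁰ x))).subset ?_
  intro v hv
  show ¬ count k v (spanSingleton (RingOfIntegers k)⁰ x) = 0
  intro h0
  apply hv
  rw [divc_val v hx, h0, neg_zero, WithZero.exp_zero]

theorem st_COR (hVEMB : ST_VEMB) (hVALU : ST_VALU) (hVALB : ST_VALB) (hIDL : ST_IDL) (hCMU : ST_CMU)
    (hKUM : Pool.Agent.Helper14.BSC.ST_KUM) (hBOT : ST_BOT) : ST_COR := by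
  intro k Ω _ _ _ _ _ D τ hτ e e' N hN hee hpl hcc
  have : CharZero (LL D) := charZero_of_injective_algebraMap (algebraMap k (LL D)).injective
  have hNL : (N : LL D) ≠ 0 := Nat.cast_ne_zero.2 hN.ne'
  have hNk : (N : k) ≠ 0 := Nat.cast_ne_zero.2 hN.ne'
  have he0 : e ≠ 0 := by
    rintro rfl
    rw [zero_mul] at hee
    exact pow_ne_zero 2 hNL hee.symm
  set S : Set (Pl k) := {v : Pl k | v.valuation k (N : k) ≠ 1} with hS
  have hSf : S.Finite := cor_fin k _ hNk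
  have hloc : ∀ v : Pl k, ∃ r : k, r ≠ 0 ∧ (v ∉ S → r = 1) ∧ ∀ n : ℕ, 0 < n → ∀ (b : k) (g : LL D),
      e = algebraMap k (LL D) b * g ^ n → ∃ t : k, v.valuation k (b / r * t ^ n) = 1 := by
    intro v
    obtain ⟨p, hp, σ, E₀, hov, hE₀, hσ⟩ := hVEMB k v
    obtain ⟨P, ⟨h1, hn1⟩, ⟨h2, hn2⟩⟩ := hpl v p σ E₀ hov hE₀ hσ
    have hprod : P.φ ⟨e, h1⟩ * P.φ ⟨e', h2⟩ = (N : ℂ_[p]) ^ 2 := by
      rw [← map_mul]
      have h3 : (⟨e, h1⟩ * ⟨e', h2⟩ : P.C) = ((N : P.C)) ^ 2 := by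
        apply Subtype.ext
        rw [MulMemClass.coe_mul, SubmonoidClass.coe_pow]
        simpa using hee
      rw [h3, map_pow, map_natCast]
    have hN0 : (N : ℂ_[p]) ≠ 0 := Nat.cast_ne_zero.2 hN.ne'
    have hne : P.φ ⟨e, h1⟩ ≠ 0 := by
      intro h0
      rw [h0, zero_mul] at hprod
      exact pow_ne_zero 2 hN0 hprod.symm
    by_cases hv : v ∈ S
    · obtain ⟨r, hr, h⟩ := hVALB k Ω D v p σ P hov ⟨e, h1⟩ hne
      exact ⟨r, hr, fun h0 => absurd hv h0, h⟩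
    · refine ⟨1, one_ne_zero, fun _ => rfl, fun n hn b g hbg => ?_⟩
      have hv1 : v.valuation k (N : k) = 1 := by
        by_contra hc
        exact hv hc
      have hσN : ‖(N : ℂ_[p])‖ = 1 := by
        have := (valu_one hov (N : k)).1 hv1
        rwa [map_natCast] at this
      have hn12 : ‖P.φ ⟨e, h1⟩‖ * ‖P.φ ⟨e', h2⟩‖ = 1 := by
        rw [← norm_mul, hprod, norm_pow, hσN, one_pow]
      have hφ1 : ‖P.φ ⟨e, h1⟩‖ = 1 := by
        apply le_antisymm hn1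
        calc (1 : ℝ) = ‖P.φ ⟨e, h1⟩‖ * ‖P.φ ⟨e', h2⟩‖ := hn12.symm
          _ ≤ ‖P.φ ⟨e, h1⟩‖ * 1 := mul_le_mul_of_nonneg_left hn2 (norm_nonneg _)
          _ = ‖P.φ ⟨e, h1⟩‖ := mul_one _
      obtain ⟨t, ht⟩ := (hVALU k Ω D v p σ P hov ⟨e, h1⟩ hne).1 hφ1 n hn b g hbg
      exact ⟨t, by rw [_root_.div_one]; exact ht⟩
  choose r hr0 hrS hr using hloc
  obtain ⟨I, hI, hIJ⟩ := hIDL k S hSf r hr0 hrS
  obtain ⟨M, hM, r1, hr1, hMn⟩ := hCMU k τ hτ I hI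
  refine ⟨2 * M, by omega, r1 * (N : k) ^ (2 * M), mul_ne_zero hr1 (pow_ne_zero _ hNk), ?_⟩
  intro n hn
  obtain ⟨c', hc'0, g, hg0, hxg⟩ := hKUM k Ω D ∅ n hn e he0
  obtain ⟨c, hc⟩ := hBOT k Ω (c' : Acl k Ω) c'.2
  have hinc : inc D ∅ c' = algebraMap k (LL D) c := by
    apply Subtype.ext
    rw [coe_inc, hc]
    rfl
  rw [hinc] at hxg
  have hc0 : c ≠ 0 := by
    rintro rfl
    rw [map_zero, zero_mul] at hxg
    exact he0 hxg
  have hτc0 : τ c ≠ 0 := (map_ne_zero τ).2 hc0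
  obtain ⟨t, ht⟩ := hMn n hn c hc0 (hIJ n hn c hc0 fun v => hr v n hn c g hxg)
  obtain ⟨a, ha, hca⟩ := hcc n hn c g hxg
  refine ⟨algebraMap k (LL D) (t * a ^ M) * g ^ (2 * M), ?_⟩
  have h2 : c ^ (2 * M) = r1 * (N : k) ^ (2 * M) * (t * a ^ M) ^ n := by
    have h3 : c ^ 2 = (c / τ c) * (c * τ c) := by
      field_simp
    rw [pow_mul, h3, mul_pow, ht, hca, mul_pow, mul_pow, ← pow_mul, ← pow_mul, ← pow_mul, mul_comm n M]
    ring
  have h4 : e ^ (2 * M) = algebraMap k (LL D) (c ^ (2 * M)) * (g ^ n) ^ (2 * M) := by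
    rw [hxg, mul_pow, map_pow]
  rw [h4, h2]
  simp only [map_mul, map_pow]
  ring

end Pool.Agent.Helper27.AD
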