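import Pool.Agent.Helper27.AD.Stmts2
import Pool.Agent.Helper27.AD.COR

/-! # AdelicSections: the divisor of the classes of an idele -/

set_option autoImplicit false

open scoped Classical

namespace Pool.Agent.Helper27.AD

open Pool.Agent.Helper14.BSC Pool.Agent.Helper13.ZL NumberField
open IsDedekindDomain FractionalIdeal nonZeroDivisors

theorem st_DVI (hVEMB : ST_VEMB) (hVALU : ST_VALU) (hVALB : ST_VALB) (hIDL : ST_IDL) : ST_DVI := by
  intro k Ω _ _ _ _ _ D e e' N hN hee hpl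
  have : CharZero (LL D) := charZero_of_injective_algebraMap (algebraMap k (LL D)).injective
  have hNL : (N : LL D) ≠ 0 := Nat.cast_ne_zero.2 hN.ne'
  have hNk : (N : k) ≠ 0 := Nat.cast_ne_zero.2 hN.ne'
  set S : Set (Pl k) := {v : Pl k | v.valuation k (N : k) ≠ 1} with hS
  have hSf : S.Finite := cor_fin k _ hNk
  have hloc : ∀ v : Pl k, ∃ r : k, r ≠ 0 ∧ (v ∉ S → r = 1) ∧ ∀ n : ℕ, 0 < n → ∀ (b : k) (g : LL D),
      e = algebraMap k (LL D) b * g ^ n → ∃ t : k, v.valuation k (b / r * t ^ n) = 1 := by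
    intro v
    obtain ⟨p, hp, σ, E₀, hov, hE₀, hσ⟩ := hVEMB k v
    obtain ⟨P, ⟨h1, hn1⟩, ⟨h2, hn2⟩⟩ := hpl v p σ E₀ hov hE₀ hσ
    have hprod : P.φ ⟨e, h1⟩ * P.φ ⟨e', h2⟩ = (N : ℂ_[p]) := by
      rw [← map_mul]
      have h3 : (⟨e, h1⟩ * ⟨e', h2⟩ : P.C) = (N : P.C) := by
        apply Subtype.ext
        rw [MulMemClass.coe_mul]
        simpa using hee
      rw [h3, map_natCast]
    have hN0 : (N : ℂ_[p]) ≠ 0 := Nat.cast_ne_zero.2 hN.ne'
    have hne : P.φ ⟨e, h1⟩ ≠ 0 := by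
      intro h0
      rw [h0, zero_mul] at hprod
      exact hN0 hprod.symm
    by_cases hv : v ∈ S
    · obtain ⟨r, hr, h⟩ := hVALB k Ω D v p σ P hov ⟨e, h1⟩ hne
      exact ⟨r, hr, fun h0 => absurd hv h0, h⟩
    · refine ⟨1, one_ne_zero, fun _ => rfl, fun n hn b g hbg => ?_⟩
      have hv1 : v.valuation k (N : k) = 1 := by
        by_contra hc
        exact hv hc
      have hσN : ‖(N : ℂ_[p])‖ = 1 := by
        have := (valu_one hov (N : k)).1 hv1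
        rwa [map_natCast] at this
      have hn12 : ‖P.φ ⟨e, h1⟩‖ * ‖P.φ ⟨e', h2⟩‖ = 1 := by
        rw [← norm_mul, hprod, hσN]
      have hφ1 : ‖P.φ ⟨e, h1⟩‖ = 1 := by
        apply le_antisymm hn1
        calc (1 : ℝ) = ‖P.φ ⟨e, h1⟩‖ * ‖P.φ ⟨e', h2⟩‖ := hn12.symm
          _ ≤ ‖P.φ ⟨e, h1⟩‖ * 1 := mul_le_mul_of_nonneg_left hn2 (norm_nonneg _)
          _ = ‖P.φ ⟨e, h1⟩‖ := mul_one _
      obtain ⟨t, ht⟩ := (hVALU k Ω D v p σ P hov ⟨e, h1⟩ hne).1 hφ1 n hn b g hbg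
      exact ⟨t, by rw [_root_.div_one]; exact ht⟩
  choose r hr0 hrS hr using hloc
  obtain ⟨I, hI, hIJ⟩ := hIDL k S hSf r hr0 hrS
  exact ⟨I, hI, fun n hn c g hc0 hxg => hIJ n hn c hc0 fun v => hr v n hn c g hxg⟩

end Pool.Agent.Helper27.AD
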