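import Pool.Agent.Helper27.AD.Stmts
import Pool.Agent.Helper68.ZL.VALU

/-! # AdelicSections: valuations of classes at a place with a finite nonzero value -/

set_option autoImplicit false

open scoped Classical

namespace Pool.Agent.Helper27.AD

open Pool.Agent.Helper14.BSC Pool.Agent.Helper13.ZL NumberField

theorem valb_kum {k Ω : Type} [Field k] [CharZero k] [Field Ω] [Algebra k Ω] [IsAlgClosed Ω]
    (hKUM : Pool.Agent.Helper14.BSC.ST_KUM) (hBOT : ST_BOT) (D : Sec k Ω) (x : LL D)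
    (hx : x ≠ 0) (n : ℕ) (hn : 0 < n) :
    ∃ c : k, c ≠ 0 ∧ ∃ g : LL D, g ≠ 0 ∧ x = algebraMap k (LL D) c * g ^ n := by
  obtain ⟨c, hc, y, hy, h⟩ := hKUM k Ω D ∅ n hn x hx
  obtain ⟨c0, hc0⟩ := hBOT k Ω (c : Acl k Ω) c.2
  have h1 : inc D ∅ c = algebraMap k (LL D) c0 := by
    apply Subtype.ext
    rw [coe_inc, hc0]
    rfl
  refine ⟨c0, ?_, y, hy, ?_⟩
  · rintro rfl
    apply hc
    apply Subtype.ext
    rw [hc0, map_zero]
    rfl
  · rw [h, h1]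

theorem st_VALB (hK : Pool.Agent.Helper14.BSC.ST_KUM) (hR : ST_ROOT) (hB : ST_BOT) (hE : ST_EFIN) :
    ST_VALB := by
  intro k Ω _ _ _ _ _ D v p _ σ P hov x hx
  obtain ⟨e, N₀, he, hN₀, hEF⟩ := hE p P.E P.finE
  have hp : p.Prime := Fact.out
  have hp1 : (1 : ℝ) < p := by exact_mod_cast hp.one_lt
  have hp0 : (0 : ℝ) < p := by linarith
  have hxne : (x : LL D) ≠ 0 := fun h0 => hx ((P.ker x).2 (Or.inl h0))
  have hφ : 0 < ‖P.φ x‖ := norm_pos_iff.2 hx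
  have key : ∀ N : ℕ, 0 < N → ∀ (b : k) (g : LL D), (x : LL D) = algebraMap k (LL D) b * g ^ N →
      ∃ u : k, u ≠ 0 ∧ ‖σ b‖ = ‖P.φ x‖ * ‖σ u‖ ^ N := by
    intro N hN b g hxb
    obtain ⟨c, hc0, g', hg', hxc⟩ := valb_kum hK hB D (x : LL D) hxne (e * N) (Nat.mul_pos he hN)
    obtain ⟨w, hw, y, hy, hyx, hσ⟩ := P.kum x hx (e * N) (Nat.mul_pos he hN) ‖P.φ x‖ hφ c g' hxc
    have hw0 : w ≠ 0 := by
      rintro rfl
      rw [zero_pow (Nat.mul_pos he hN).ne', mul_zero, map_eq_zero] at hσ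
      exact hc0 hσ
    obtain ⟨⟨j, hj⟩, -⟩ := hEF w hw hw0
    have hy1 : ‖y‖ = ‖P.φ x‖ := valu_near hyx
    have hσc : ‖σ c‖ = ‖P.φ x‖ * ((p : ℝ) ^ j) ^ N := by
      rw [hσ, norm_mul, hy1, norm_pow, pow_mul, hj]
    have hb0 : b ≠ 0 := by
      rintro rfl
      rw [map_zero, zero_mul] at hxb
      exact hxne hxb
    have hg0 : g ≠ 0 := by
      rintro rfl
      rw [zero_pow hN.ne', mul_zero] at hxb
      exact hxne hxb
    have hcL : algebraMap k (LL D) c ≠ 0 := (map_ne_zero _).2 hc0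
    have h2 : algebraMap k (LL D) c * g' ^ (e * N) = algebraMap k (LL D) b * g ^ N := by
      rw [← hxc, ← hxb]
    have h3 : (g' ^ e / g) ^ N = algebraMap k (LL D) (b / c) := by
      rw [div_pow, ← pow_mul, map_div₀, div_eq_div_iff (pow_ne_zero _ hg0) hcL]
      rw [mul_comm, h2]
    obtain ⟨a, ha⟩ := valu_root hR hB D hN h3
    have hca : b = c * a ^ N := by
      apply (algebraMap k (LL D)).injective
      rw [map_mul, map_pow, ← ha, h3, map_div₀, mul_div_cancel₀ _ hcL]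
    have ha0 : a ≠ 0 := by
      rintro rfl
      rw [zero_pow hN.ne', mul_zero] at hca
      exact hb0 hca
    refine ⟨a * (p : k) ^ (-j), mul_ne_zero ha0 (zpow_ne_zero _ (Nat.cast_ne_zero.2 hp.ne_zero)), ?_⟩
    have h5 : ‖σ (a * (p : k) ^ (-j))‖ = ‖σ a‖ * (p : ℝ) ^ j := by
      rw [map_mul, map_zpow₀, map_natCast, norm_mul, norm_zpow, valu_p, inv_zpow', neg_neg]
    rw [h5, hca, map_mul, map_pow, norm_mul, norm_pow, hσc]
    ring
  obtain ⟨b1, hb1, g1, hg1, hxb1⟩ := valb_kum hK hB D (x : LL D) hxne 1 one_pos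
  obtain ⟨u1, hu1, h1⟩ := key 1 one_pos b1 g1 hxb1
  rw [pow_one] at h1
  have hσu1 : ‖σ u1‖ ≠ 0 := by
    rw [norm_ne_zero_iff, Ne, map_eq_zero]
    exact hu1
  have hr : ‖σ (b1 / u1)‖ = ‖P.φ x‖ := by
    rw [map_div₀, norm_div, h1, mul_div_assoc, div_self hσu1, mul_one]
  refine ⟨b1 / u1, div_ne_zero hb1 hu1, fun N hN b g hxb => ?_⟩
  obtain ⟨u, hu, h⟩ := key N hN b g hxb
  have hσu : ‖σ u‖ ≠ 0 := by
    rw [norm_ne_zero_iff, Ne, map_eq_zero]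
    exact hu
  refine ⟨u⁻¹, (valu_one hov _).2 ?_⟩
  rw [map_mul, map_div₀ σ b (b1 / u1), map_pow, map_inv₀, norm_mul, norm_div, norm_pow, norm_inv, hr, h]
  rw [mul_div_cancel_left₀ _ hφ.ne', ← mul_pow, mul_inv_cancel₀ hσu, one_pow]

end Pool.Agent.Helper27.AD
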