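import Pool.Agent.Helper18.NF.All3
import Pool.Agent.Helper13.ZL.All
import Pool.Agent.Helper28.AD.WPL
import Pool.Agent.Helper30.AD.REAL
import Pool.Agent.Helper91.AD.CMU
import Pool.Agent.Helper91.AD.IDL
import Pool.Agent.Helper27.AD.DVI
import Pool.Agent.Helper27.AD.VALB

/-! # AdelicSections: assembly, totally real fields -/

set_option autoImplicit false

open scoped Classical

namespace Pool.Agent.Helper27.AD

open Pool.Agent.Helper14.BSC Pool.Agent.Helper13.ZL NumberField Pool.Agent.Helper14.BSC.Gen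
open Pool.Agent.Helper18.NF Polynomial

theorem ad_WPL : ST_WPL := st_WPL all_KUM all_BOT all_EFIN
theorem ad_VALB : ST_VALB := st_VALB all_KUM all_ROOT all_BOT all_EFIN
theorem ad_IDL : ST_IDL := st_IDL
theorem ad_CMU : ST_CMU := st_CMU
theorem ad_REAL : ST_REAL := st_REAL all_KUM all_BOT
theorem ad_COR : ST_COR := st_COR all_VEMB all_VALU ad_VALB ad_IDL ad_CMU all_KUM all_BOT
theorem ad_DVI : ST_DVI := st_DVI all_VEMB all_VALU ad_VALB ad_IDL

/-- integral functions have values of norm at most one at the places of the library -/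
theorem asm_place {k k₀ K kb Ω : Type} [Field k] [Field k₀] [NumberField k₀] [Field K] [Field kb]
    [Field Ω] [Algebra k kb] [Algebra kb Ω] [Algebra k₀ Ω] [Algebra K Ω] [IsAlgClosed Ω]
    (s : (kb ≃ₐ[k] kb) →* (Ω ≃ₐ[K] Ω)) (D : Sec k₀ Ω) (e : kb ≃+* Acl k₀ Ω)
    (he : ∀ y, ((e y : Acl k₀ Ω) : Ω) = algebraMap kb Ω y)
    (hg : ∀ g : GG k₀ Ω, ∃ g' : kb ≃ₐ[k] kb, (∀ c, e (g' c) = g (e c)) ∧ ∀ x, D.s g x = s g' x)
    (x : LL D) (hx : Integral s (x : Ω)) (p : ℕ) [Fact p.Prime] (σ : k₀ →+* ℂ_[p])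
    (P : Place D p σ) : ∃ h : x ∈ P.C, ‖P.φ ⟨x, h⟩‖ ≤ 1 := by
  have hA : Algebra.IsAlgebraic k₀ (Acl k₀ Ω) := inferInstance
  obtain ⟨ι', hι'⟩ : ∃ ι' : Acl k₀ Ω →+* ℂ_[p], ι'.comp (algebraMap k₀ (Acl k₀ Ω)) = σ := by
    let _ : Algebra k₀ ℂ_[p] := σ.toAlgebra
    let f : Acl k₀ Ω →ₐ[k₀] ℂ_[p] := IsAlgClosed.lift
    exact ⟨f.toRingHom, RingHom.ext fun c => f.commutes c⟩
  subst hι'
  obtain ⟨W, hW1, hW2, hxW⟩ := hx p (ι'.comp (e : kb →+* Acl k₀ Ω))
  have hW : WOver D ι' W := by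
    refine ⟨fun c => ?_, fun g hgi x => ?_⟩
    · obtain ⟨y, rfl⟩ := e.surjective c
      rw [he]
      exact hW1 y
    · obtain ⟨g', h1, h2⟩ := hg g
      rw [h2]
      apply hW2
      intro c
      show ‖ι' (e (g' c))‖ = ‖ι' (e c)‖
      rw [h1, hgi]
  exact ad_WPL k₀ Ω D p ι' W hW P x hxW

theorem asm_root {F : Type} [Field F] (W : ValuationSubring F) (f e : F) (N : ℕ) (hf : f ∈ W)
    (h : e ^ 2 = 2 * f * e - (N : F) ^ 2) : e ∈ W := by
  by_contra hc
  have h1 : 1 < W.valuation e := by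
    rw [← not_le, W.valuation_le_one_iff]
    exact hc
  have hn : ∀ m : ℕ, W.valuation (m : F) ≤ 1 := fun m =>
    (W.valuation_le_one_iff _).2 (natCast_mem W m)
  have h2 : W.valuation (2 * f * e - (N : F) ^ 2) ≤ W.valuation e := by
    refine (W.valuation.map_sub _ _).trans (max_le ?_ ?_)
    · rw [map_mul, map_mul]
      have h3 : W.valuation (2 : F) ≤ 1 := by exact_mod_cast hn 2
      have h4 : W.valuation f ≤ 1 := (W.valuation_le_one_iff _).2 hf
      calc W.valuation (2 : F) * W.valuation f * W.valuation e ≤ 1 * 1 * W.valuation e := by gcongr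
        _ = W.valuation e := by rw [one_mul, one_mul]
    · rw [map_pow]
      exact (pow_le_one₀ zero_le (hn N)).trans h1.le
  rw [← h, map_pow, pow_two] at h2
  have h5 : W.valuation e < W.valuation e * W.valuation e := by
    have h0 : 0 < W.valuation e := lt_trans zero_lt_one h1
    calc W.valuation e = 1 * W.valuation e := (one_mul _).symm
      _ < W.valuation e * W.valuation e := by
        exact mul_lt_mul_of_pos_right h1 h0
  exact absurd h2 (not_le.2 h5)

section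

variable {k K kb Ω : Type} [Field k] [Field K] [Field kb] [Field Ω] [Algebra k K] [Algebra k kb]
  [Algebra kb Ω] [Algebra k Ω] [Algebra K Ω] [IsScalarTower k K Ω] [IsScalarTower k kb Ω]
  [Algebra.IsAlgebraic K Ω] [IsAlgClosure k kb]

/-- fixed and algebraic over `k` implies in `k` -/
theorem asm_alg [CharZero k] [IsAlgClosed Ω] (s : (kb ≃ₐ[k] kb) →* (Ω ≃ₐ[K] Ω)) (hs : IsSection s)
    (f : Ω) (hf : ∀ g, s g f = f) (ha : IsAlgebraic k f) : f ∈ (algebraMap k Ω).range := by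
  have hfD : f ∈ LL (topD s hs) := (top_mem s hs f).2 hf
  have hfA : f ∈ Acl k Ω := (mem_algebraicClosure_iff).2 ha
  have h1 : (⟨f, hfA⟩ : Acl k Ω) ∈ FF (∅ : Set (Acl k Ω)) := (coe_mem_NN (D := topD s hs)).1 hfD
  obtain ⟨c, hc⟩ := all_BOT k Ω _ h1
  exact ⟨c, (congrArg (fun z : Acl k Ω => (z : Ω)) hc).symm⟩

/-- membership in the fixed field over `k'` -/
theorem asm_fix (s : (kb ≃ₐ[k] kb) →* (Ω ≃ₐ[K] Ω)) (hs : IsSection s) (k' : IntermediateField k kb)
    [IsAlgClosure k' kb] (x : Ω) :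
    x ∈ LL (tqD k' s hs) ↔ ∀ g : kb ≃ₐ[k] kb, (∀ c ∈ k', g c = c) → s g x = x := by
  rw [tq_mem]
  constructor
  · intro h g hg
    let g' : kb ≃ₐ[k'] kb := AlgEquiv.ofRingEquiv (f := (g : kb ≃+* kb)) (fun c => hg c c.2)
    have h1 : g'.restrictScalars k = g := AlgEquiv.ext fun _ => rfl
    rw [← h1]
    exact h g'
  · intro h g
    exact h _ fun c hc => g.commutes ⟨c, hc⟩

/-- the criterion used at the end: a constant times an `n`-th power for all `n` -/
theorem asm_pow [NumberField k] [IsAlgClosed Ω]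
    (htr : ∃ t : K, Transcendental k t ∧ Algebra.IsAlgebraic (IntermediateField.adjoin k {t}) K)
    (s : (kb ≃ₐ[k] kb) →* (Ω ≃ₐ[K] Ω)) (hs : IsSection s)
    (k' : IntermediateField k kb) [FiniteDimensional k k'] (f : Ω) (hf : Transcendental k f)
    (h : ∀ n : ℕ, 0 < n → ∃ g : Ω, InFix s k' g ∧ g ^ n = f) : IsGeometric s := by
  refine all_any htr s hs k' (X ^ 2) 1 isCoprime_one_right ?_ f hf fun N => ?_
  · rw [natDegree_X_pow]
    exact le_max_left _ _
  · obtain ⟨g, hg, hgf⟩ := h (2 ^ N) (pow_pos two_pos N)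
    refine ⟨g, hg, ?_⟩
    rw [← hgf]
    have h1 : ∀ (N : ℕ) (g : Ω),
        (fun x : Ω => aeval x (X ^ 2 : k'[X]) / aeval x (1 : k'[X]))^[N] g = g ^ 2 ^ N := by
      intro N
      induction N with
      | zero => intro g; rw [pow_zero, pow_one]; rfl
      | succ N ih =>
        intro g
        rw [Function.iterate_succ_apply, ih, map_pow, aeval_X, map_one, div_one, ← pow_mul,
          pow_succ' 2 N]
    exact h1 N g

end

end Pool.Agent.Helper27.AD
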