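import Pool.Agent.Helper27.AD.Real3

/-! # AdelicSections: totally real fields, the theorem -/

set_option autoImplicit false

open scoped Classical

namespace Pool.Agent.Helper27.AD

open Pool.Agent.Helper14.BSC Pool.Agent.Helper13.ZL NumberField Pool.Agent.Helper14.BSC.Gen
open Pool.Agent.Helper18.NF Polynomial

section

variable {k K kb Ω : Type} [Field k] [Field K] [Field kb] [Field Ω] [Algebra k K] [Algebra k kb]
  [Algebra kb Ω] [Algebra k Ω] [Algebra K Ω] [IsScalarTower k K Ω] [IsScalarTower k kb Ω]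
  [Algebra.IsAlgebraic K Ω] [IsAlgClosure k kb]

/-- over a totally real field one function which is integral at all finite places and bounded at all real
places makes the section geometric -/
theorem ad_real [NumberField k] [IsAlgClosed Ω]
    (htr : ∃ t : K, Transcendental k t ∧ Algebra.IsAlgebraic (IntermediateField.adjoin k {t}) K)
    (s : (kb ≃ₐ[k] kb) →* (Ω ≃ₐ[K] Ω)) (hs : IsSection s)
    (hreal : ∀ (φ : k →+* ℂ) (x : k), (starRingEnd ℂ) (φ x) = φ x)
    (f : Ω) (hf : ∀ g, s g f = f) (hfk : f ∉ (algebraMap k Ω).range) (hI : Integral s f)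
    (hB : Bounded s f) : IsGeometric s := by
  have hac : IsAlgClosed kb := IsAlgClosure.isAlgClosed k
  have hka : Algebra.IsAlgebraic k kb := IsAlgClosure.isAlgebraic
  have : CharZero Ω := charZero_of_injective_algebraMap (algebraMap k Ω).injective
  have : CharZero kb := charZero_of_injective_algebraMap (algebraMap k kb).injective
  obtain ⟨N, hN, d, hd, hdneg, y, hy0, hy, hfy⟩ := ad_REAL k K kb Ω s hs hreal f hf hfk hB
  obtain ⟨φ₀⟩ : Nonempty (k →+* ℂ) := inferInstance
  obtain ⟨δ, hδ⟩ := IsAlgClosed.exists_pow_nat_eq (algebraMap k kb d) (n := 2) (by norm_num)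
  obtain ⟨k', hk'⟩ : ∃ k' : IntermediateField k kb, k' = IntermediateField.adjoin k {δ} := ⟨_, rfl⟩
  obtain ⟨κ, τ, hκδ, hτκ, hτ⟩ := r3_cm' hreal φ₀ d hdneg δ hδ k' hk'
  have hfd : FiniteDimensional k k' := by
    rw [hk']
    exact IntermediateField.adjoin.finiteDimensional (Algebra.IsIntegral.isIntegral δ)
  have hnf : NumberField k' := NumberField.of_module_finite k k'
  have hicl : IsAlgClosure k' kb := icl k'
  have hδk' : δ ∈ k' := by
    rw [hk']
    exact IntermediateField.mem_adjoin_simple_self k δ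
  set D' := tqD k' s hs with hD'
  set δΩ : Ω := algebraMap kb Ω δ with hδΩ
  have hδΩ2 : δΩ ^ 2 = algebraMap k Ω d := by
    rw [hδΩ, ← map_pow, hδ, ← IsScalarTower.algebraMap_apply]
  have hκΩ : s κ δΩ = -δΩ := by rw [hδΩ, hs.2, hκδ, map_neg]
  have hfixδ : ∀ g : kb ≃ₐ[k] kb, (∀ c ∈ k', g c = c) → s g δΩ = δΩ := by
    intro g hg
    rw [hδΩ, hs.2, hg δ hδk']
  have hmem : ∀ x : Ω, x ∈ LL D' ↔ ∀ g : kb ≃ₐ[k] kb, (∀ c ∈ k', g c = c) → s g x = x :=
    asm_fix s hs k'
  set E : Ω := f + y * δΩ with hE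
  set E' : Ω := f - y * δΩ with hE'
  have hED : E ∈ LL D' := (hmem E).2 fun g hg => by
    rw [hE, map_add, map_mul, hf, hy, hfixδ g hg]
  have hE'D : E' ∈ LL D' := (hmem E').2 fun g hg => by
    rw [hE', map_sub, map_mul, hf, hy, hfixδ g hg]
  have hEE : E * E' = (N : Ω) ^ 2 := by
    rw [hE, hE']
    linear_combination hfy - y ^ 2 * hδΩ2
  have hκE : s κ E = E' := by
    rw [hE, hE', map_add, map_mul, hf, hy, hκΩ]
    ring
  have hIE : Integral s E := by
    intro l _ ι
    obtain ⟨W, h1, h2, h3⟩ := hI l ι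
    refine ⟨W, h1, h2, asm_root W f E N h3 ?_⟩
    have h4 : E + E' = 2 * f := by rw [hE, hE']; ring
    linear_combination E * h4 - hEE
  have hIE' : Integral s E' := by
    intro l _ ι
    obtain ⟨W, h1, h2, h3⟩ := hI l ι
    refine ⟨W, h1, h2, asm_root W f E' N h3 ?_⟩
    have h4 : E + E' = 2 * f := by rw [hE, hE']; ring
    linear_combination E' * h4 - hEE
  have hgD : ∀ g : GG k' Ω, ∃ g' : kb ≃ₐ[k] kb,
      (∀ c, (topE k' kb Ω).toRingEquiv (g' c) = g ((topE k' kb Ω).toRingEquiv c)) ∧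
        ∀ x, D'.s g x = s g' x := by
    intro g
    refine ⟨((AlgEquiv.autCongr (topE k' kb Ω)).symm g).restrictScalars k, fun c => ?_, fun x => rfl⟩
    exact (topE k' kb Ω).apply_symm_apply _
  have hpl : ∀ (x : LL D'), Integral s (x : Ω) → ∀ (p : ℕ) [Fact p.Prime] (σ : k' →+* ℂ_[p])
      (P : Place D' p σ), ∃ h : x ∈ P.C, ‖P.φ ⟨x, h⟩‖ ≤ 1 := by
    intro x hx p _ σ P
    exact asm_place s D' (topE k' kb Ω).toRingEquiv (fun y => topE_coe y) hgD x hx p σ P
  set e : LL D' := ⟨E, hED⟩ with he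
  set e' : LL D' := ⟨E', hE'D⟩ with he'
  have hee : e * e' = (N : LL D') ^ 2 := by
    apply Subtype.ext
    rw [MulMemClass.coe_mul, SubmonoidClass.coe_pow]
    simpa using hEE
  have hNΩ : (N : Ω) ≠ 0 := Nat.cast_ne_zero.2 hN.ne'
  have hE0 : E ≠ 0 := by
    intro h0
    rw [h0, zero_mul] at hEE
    exact pow_ne_zero 2 hNΩ hEE.symm
  have : CharZero (LL D') := charZero_of_injective_algebraMap (algebraMap k' (LL D')).injective
  have hkc : ∀ x : k', algebraMap k' Ω x = algebraMap kb Ω (x : kb) := fun x => rfl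
  obtain ⟨M, hM, r, hr, hMr⟩ := ad_COR k' Ω D' τ hτ e e' N hN hee (by
      intro v p _ σ E₀ hov hE₀ hσ
      obtain ⟨P, -⟩ := all_RK k' Ω D' p σ E₀ hE₀ hσ
      exact ⟨P, hpl e hIE p σ P, hpl e' hIE' p σ P⟩) (by
      intro n hn c g hcg
      have hG : s κ (g : Ω) ∈ LL D' := by
        rw [hmem]
        intro h hh
        have h1 : s h (s κ (g : Ω)) = s κ (s (κ⁻¹ * h * κ) (g : Ω)) := by
          rw [← AlgEquiv.mul_apply, ← AlgEquiv.mul_apply, ← map_mul, ← map_mul]
          congr 2
          group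
        rw [h1, (hmem (g : Ω)).1 g.2]
        intro c hc
        rw [AlgEquiv.mul_apply, AlgEquiv.mul_apply]
        have h2 : h (κ c) = κ c := by
          apply hh
          have := (τ ⟨c, hc⟩).2
          rwa [hτκ] at this
        rw [h2]
        exact κ.symm_apply_apply c
      set G : LL D' := ⟨s κ (g : Ω), hG⟩ with hGdef
      have h1 : e' = algebraMap k' (LL D') (τ c) * G ^ n := by
        apply Subtype.ext
        show E' = algebraMap k' Ω (τ c) * (s κ (g : Ω)) ^ n
        have h2 : E = algebraMap k' Ω c * (g : Ω) ^ n := congrArg (fun z : LL D' => (z : Ω)) hcg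
        rw [← hκE, h2, map_mul, map_pow, hkc, hs.2, hkc, hτκ]
      have he0 : e ≠ 0 := fun h0 => hE0 (congrArg (fun z : LL D' => (z : Ω)) h0)
      have hc0 : c ≠ 0 := by
        rintro rfl
        rw [map_zero, zero_mul] at hcg
        exact he0 hcg
      have hτc0 : τ c ≠ 0 := (map_ne_zero τ).2 hc0
      have hcc0 : c * τ c ≠ 0 := mul_ne_zero hc0 hτc0
      have h3 : algebraMap k' (LL D') (c * τ c) * (g * G) ^ n = (N : LL D') ^ 2 := by
        have h7 : e * e' = (algebraMap k' (LL D') c * g ^ n) *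
            (algebraMap k' (LL D') (τ c) * G ^ n) := by
          rw [← hcg, ← h1]
        rw [← hee, h7, map_mul, mul_pow]
        ring
      have h4 : (g * G) ^ n = algebraMap k' (LL D') ((N : k') ^ 2 / (c * τ c)) := by
        rw [map_div₀, eq_div_iff ((_root_.map_ne_zero _).2 hcc0), mul_comm, h3, map_pow, map_natCast]
      obtain ⟨b, hb⟩ := valu_root all_ROOT all_BOT D' hn h4
      have hNk' : (N : k') ≠ 0 := Nat.cast_ne_zero.2 hN.ne'
      have h5 : b ^ n = (N : k') ^ 2 / (c * τ c) := by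
        apply (algebraMap k' (LL D')).injective
        rw [map_pow, ← hb, h4]
      have hb0 : b ≠ 0 := by
        rintro rfl
        rw [zero_pow hn.ne', eq_comm, div_eq_zero_iff] at h5
        rcases h5 with h5 | h5
        · exact pow_ne_zero 2 hNk' h5
        · exact hcc0 h5
      refine ⟨b⁻¹, inv_ne_zero hb0, ?_⟩
      rw [inv_pow, h5, inv_div, mul_div_cancel₀ _ (pow_ne_zero 2 hNk')])
  have hrΩ : algebraMap k' Ω r ≠ 0 := (_root_.map_ne_zero _).2 hr
  refine asm_pow htr s hs k' (E ^ M / algebraMap k' Ω r) ?_ ?_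
  · intro halg
    have hralg : IsAlgebraic k (algebraMap k' Ω r) := by
      rw [hkc]
      exact (hka.isAlgebraic (r : kb)).algebraMap
    have h1 : IsAlgebraic k (E ^ M) := by
      have h2 := halg.mul hralg
      rwa [div_mul_cancel₀ _ hrΩ] at h2
    have h2 : IsAlgebraic k E := h1.of_pow hM
    have h3 : IsAlgebraic k E' := by
      have h4 : E' = (N : Ω) ^ 2 * E⁻¹ := by
        rw [← hEE]
        field_simp
      rw [h4]
      exact ((isAlgebraic_natCast (R := k) (A := Ω) N).pow 2).mul h2.inv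
    apply hfk
    apply asm_alg s hs f hf
    have h4 : f = (E + E') * ((2 : ℕ) : Ω)⁻¹ := by
      rw [hE, hE']
      push_cast
      field_simp
      ring
    rw [h4]
    exact (h2.add h3).mul (isAlgebraic_natCast (R := k) (A := Ω) 2).inv
  · intro n hn
    obtain ⟨t, ht⟩ := hMr n hn
    refine ⟨(t : Ω), (hmem (t : Ω)).1 t.2, ?_⟩
    have h1 : E ^ M = algebraMap k' Ω r * (t : Ω) ^ n := congrArg (fun z : LL D' => (z : Ω)) ht
    rw [h1, mul_div_cancel_left₀ _ hrΩ]

end

end Pool.Agent.Helper27.AD
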