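import Pool.Agent.Helper27.AD.Norm1
import Pool.Agent.Helper27.AD.Real4

/-! # AdelicSections: the final theorem -/

set_option autoImplicit false

open scoped Classical

namespace Pool.Agent.Helper27.AD

open Pool.Agent.Helper14.BSC Pool.Agent.Helper13.ZL NumberField Pool.Agent.Helper14.BSC.Gen
open Pool.Agent.Helper18.NF Polynomial

section

variable {k K kb Ω : Type} [Field k] [Field K] [Field kb] [Field Ω] [Algebra k K] [Algebra k kb]
  [Algebra kb Ω] [Algebra k Ω] [Algebra K Ω] [IsScalarTower k K Ω] [IsScalarTower k kb Ω]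
  [Algebra.IsAlgebraic K Ω] [IsAlgClosure k kb]

omit [Algebra k K] [Algebra kb Ω] [Algebra k Ω] [IsScalarTower k K Ω] [IsScalarTower k kb Ω]
  [Algebra.IsAlgebraic K Ω] [IsAlgClosure k kb] in
theorem fin_bounded (s : (kb ≃ₐ[k] kb) →* (Ω ≃ₐ[K] Ω)) (f : Ω) (m : ℕ) (h : Bounded s f) :
    Bounded s ((m : Ω) * f) := by
  intro ι τ hτ
  obtain ⟨N, y, hy, hy2⟩ := h ι τ hτ
  refine ⟨m * N, (m : Ω) * y, ?_, ?_⟩
  · rw [map_mul, map_natCast, hy]
  · rw [mul_pow, hy2]
    push_cast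
    ring

omit [Algebra k K] [Algebra k kb] [Algebra kb Ω] [IsScalarTower k K Ω] [IsScalarTower k kb Ω]
  [Algebra.IsAlgebraic K Ω] [IsAlgClosure k kb] [Field K] [Field kb] [Algebra K Ω] in
theorem fin_int (W : ValuationSubring Ω) (z : k) (hz : IsIntegral ℤ z) : algebraMap k Ω z ∈ W := by
  have h1 : IsIntegral ℤ (algebraMap k Ω z) := by
    have := hz.map ((algebraMap k Ω : k →+* Ω).toIntAlgHom)
    exact this
  have h2 : IsIntegral W (algebraMap k Ω z) := by
    obtain ⟨P, hP, hPz⟩ := h1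
    refine ⟨P.map (Int.castRingHom W), hP.map _, ?_⟩
    rw [Polynomial.eval₂_map]
    have h3 : (algebraMap W Ω).comp (Int.castRingHom W) = algebraMap ℤ Ω := RingHom.ext_int _ _
    rw [h3]
    exact hPz
  obtain ⟨y, hy⟩ := IsIntegrallyClosed.isIntegral_iff.1 h2
  rw [← hy]
  exact y.2

omit [Algebra k K] [IsScalarTower k K Ω] [IsScalarTower k kb Ω]
  [Algebra.IsAlgebraic K Ω] [IsAlgClosure k kb] in
theorem fin_sub [NumberField k] (s : (kb ≃ₐ[k] kb) →* (Ω ≃ₐ[K] Ω)) (f : Ω) (c : k)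
    (h : Adelic s f) : Adelic s (f - algebraMap k Ω c) := by
  obtain ⟨m, hm, hI⟩ := h
  have hc : IsAlgebraic ℤ c := by
    have h1 : IsAlgebraic ℚ c := Algebra.IsAlgebraic.isAlgebraic c
    exact (IsFractionRing.isAlgebraic_iff ℤ ℚ k).2 h1
  obtain ⟨y, hy0, hyc⟩ := hc.exists_integral_multiple
  have hyn : 0 < y.natAbs := Int.natAbs_pos.2 hy0
  have hint : IsIntegral ℤ ((y.natAbs : k) * c) := by
    have h2 : IsIntegral ℤ ((y : k) * c) := by
      rw [← zsmul_eq_mul]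
      exact hyc
    rcases Int.natAbs_eq y with h3 | h3
    · rw [h3, Int.cast_natCast] at h2
      exact h2
    · rw [h3] at h2
      have h4 := h2.neg
      have h5 : -(((-(y.natAbs : ℤ) : ℤ) : k) * c) = (y.natAbs : k) * c := by
        rw [Int.cast_neg, Int.cast_natCast]
        ring
      rwa [h5] at h4
  refine ⟨m * y.natAbs, Nat.mul_pos hm hyn, fun l _ ι => ?_⟩
  obtain ⟨W, h1, h2, h3⟩ := hI l ι
  refine ⟨W, h1, h2, ?_⟩
  have h4 : ((m * y.natAbs : ℕ) : Ω) * (f - algebraMap k Ω c) =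
      (y.natAbs : Ω) * ((m : Ω) * f) - (m : Ω) * algebraMap k Ω ((y.natAbs : k) * c) := by
    rw [map_mul, map_natCast]
    push_cast
    ring
  rw [h4]
  exact sub_mem (mul_mem (natCast_mem W _) h3) (mul_mem (natCast_mem W _) (fin_int W _ hint))

/-- from an adelic point of one open set to geometricity -/
theorem fin_main [NumberField k] [IsAlgClosed Ω] (k₁ : Type) [Field k₁] [NumberField k₁]
    [Algebra k₁ k] [FiniteDimensional k₁ k]
    (htr : ∃ t : K, Transcendental k t ∧ Algebra.IsAlgebraic (IntermediateField.adjoin k {t}) K)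
    (s : (kb ≃ₐ[k] kb) →* (Ω ≃ₐ[K] Ω)) (hs : IsSection s) (m : ℕ)
    (hm : (NumberField.IsTotallyReal k ∧ m = 0) ∨
      (Finite (RingOfIntegers k₁)ˣ ∧ m = Module.finrank k₁ k))
    (f : Ω) (hf : ∀ g, s g f = f) (hfk : f ∉ (algebraMap k Ω).range)
    (h1 : Adelic s f) (h2 : m = 0 → Bounded s f) (A : Finset k₁) (hA : A.card = m)
    (h3 : ∀ c ∈ A, Adelic s (f - algebraMap k Ω (algebraMap k₁ k c))⁻¹) : IsGeometric s := by
  rcases hm with ⟨hreal, hm0⟩ | ⟨hfin, hmd⟩
  · obtain ⟨M, hM, hMI⟩ := h1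
    have : CharZero Ω := charZero_of_injective_algebraMap (algebraMap k Ω).injective
    have hMk : (M : k) ≠ 0 := Nat.cast_ne_zero.2 hM.ne'
    refine ad_real htr s hs ?_ ((M : Ω) * f) ?_ ?_ hMI (fin_bounded s f M (h2 hm0))
    · intro φ x
      have h4 : ComplexEmbedding.IsReal φ := by
        have := hreal.isReal (InfinitePlace.mk φ)
        exact (InfinitePlace.isReal_mk_iff).1 this
      exact RingHom.congr_fun (ComplexEmbedding.isReal_iff.1 h4) x
    · intro g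
      rw [map_mul, map_natCast, hf]
    · rintro ⟨c, hc⟩
      apply hfk
      refine ⟨c / (M : k), ?_⟩
      rw [map_div₀, hc, map_natCast, mul_div_cancel_left₀ _ (Nat.cast_ne_zero.2 hM.ne')]
  · refine ad_sub k₁ hfin htr s hs f hf hfk A (hA.trans hmd) fun c hc => ⟨?_, h3 c hc⟩
    exact fin_sub s f _ h1

/-- the converse -/
theorem fin_conv (hCNVB : ST_CNVB) [NumberField k] [IsAlgClosed Ω] (k₁ : Type) [Field k₁]
    [NumberField k₁] [Algebra k₁ k]
    (s : (kb ≃ₐ[k] kb) →* (Ω ≃ₐ[K] Ω)) (hs : IsSection s) (m : ℕ) (hG : IsGeometric s) :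
    ∃ f : K, f ∉ (algebraMap k K).range ∧ Adelic s (algebraMap K Ω f) ∧
      Bounded s (algebraMap K Ω f) ∧ ∃ A : Finset k₁, A.card = m ∧
        ∀ c ∈ A, Adelic s (algebraMap K Ω f - algebraMap k Ω (algebraMap k₁ k c))⁻¹ := by
  obtain ⟨f, hf, h1, h2, h3⟩ := hCNVB k K kb Ω s hs hG
  refine ⟨f, hf, ⟨1, one_pos, by rwa [Nat.cast_one, one_mul]⟩, h2,
    (Finset.Icc 1 m).image (fun j : ℕ => (j : k₁)), ?_, ?_⟩
  · rw [Finset.card_image_of_injective _ Nat.cast_injective, Nat.card_Icc]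
    omega
  · intro c hc
    obtain ⟨j, hj, rfl⟩ := Finset.mem_image.1 hc
    have hj1 : 0 < j := (Finset.mem_Icc.1 hj).1
    refine ⟨j, hj1, ?_⟩
    have h4 := h3 j hj1
    rw [map_div₀, map_sub, map_natCast] at h4
    rwa [map_natCast, map_natCast, ← div_eq_mul_inv]

end

end Pool.Agent.Helper27.AD
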