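import Pool.Agent.Helper27.AD.Asm
import Pool.Agent.Helper28.AD.NRL
import Pool.Agent.Helper94.AD.NRK
import Pool.Agent.Helper91.AD.CMF

/-! # AdelicSections: ideles and rational norms to a subfield with finite unit group -/

set_option autoImplicit false

open scoped Classical

namespace Pool.Agent.Helper27.AD

open Pool.Agent.Helper14.BSC Pool.Agent.Helper13.ZL NumberField Pool.Agent.Helper14.BSC.Gen
open Pool.Agent.Helper18.NF Polynomial

theorem ad_NRL : ST_NRL := st_NRL all_KUM all_ROOT all_BOT all_EFIN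
theorem ad_NRK : ST_NRK := Pool.Agent.Helper94.AD.st_NRK
theorem ad_CMF : ST_CMF := st_CMF

/-- rational norms to `k₁` -/
theorem ad_nri {k k₁ Ω : Type} [Field k] [NumberField k] [Field k₁] [NumberField k₁] [Algebra k₁ k]
    [FiniteDimensional k₁ k] [Field Ω] [Algebra k Ω] [IsAlgClosed Ω] (D : Sec k Ω)
    (hfin : Finite (RingOfIntegers k₁)ˣ) (e e' : LL D) (N : ℕ) (hN : 0 < N)
    (hee : e * e' = (N : LL D))
    (hpl : ∀ (p : ℕ) [Fact p.Prime] (σ : k →+* ℂ_[p]) (P : Place D p σ),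
      (∃ h : e ∈ P.C, ‖P.φ ⟨e, h⟩‖ ≤ 1) ∧ (∃ h : e' ∈ P.C, ‖P.φ ⟨e', h⟩‖ ≤ 1)) :
    NR D k₁ e := by
  have : CharZero (LL D) := charZero_of_injective_algebraMap (algebraMap k (LL D)).injective
  have hNL : (N : LL D) ≠ 0 := Nat.cast_ne_zero.2 hN.ne'
  have hNk : (N : k₁) ≠ 0 := Nat.cast_ne_zero.2 hN.ne'
  have he0 : e ≠ 0 := by
    rintro rfl
    rw [zero_mul] at hee
    exact hNL hee.symm
  set S : Set (Pl k₁) := {v : Pl k₁ | v.valuation k₁ (N : k₁) ≠ 1} with hS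
  have hSf : S.Finite := cor_fin k₁ _ hNk
  have hloc : ∀ v : Pl k₁, ∃ r : k₁, r ≠ 0 ∧ (v ∉ S → r = 1) ∧ ∀ n : ℕ, 0 < n →
      ∀ (c : k) (g : LL D), c ≠ 0 → e = algebraMap k (LL D) c * g ^ n →
        ∃ t : k₁, v.valuation k₁ (Algebra.norm k₁ c / r * t ^ n) = 1 := by
    intro v
    obtain ⟨p, hp, j, E₀, hov, hE₀, hj⟩ := all_VEMB k₁ v
    obtain ⟨T, hTj, -, hTE⟩ := all_TSX k k₁ p j E₀ hE₀ hj
    have hP : ∀ i, Nonempty (Place D p (T.σ i)) := by
      intro i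
      obtain ⟨E₁, hE₁, h1, -⟩ := hTE i
      obtain ⟨P, -⟩ := all_RK k Ω D p (T.σ i) E₁ hE₁ h1
      exact ⟨P⟩
    let P : ∀ i, Place D p (T.σ i) := fun i => (hP i).some
    have h1 : ∀ i, e ∈ (P i).C := fun i => (hpl p (T.σ i) (P i)).1.1
    have hn1 : ∀ i, ‖(P i).φ ⟨e, h1 i⟩‖ ≤ 1 := fun i => (hpl p (T.σ i) (P i)).1.2
    have h2 : ∀ i, e' ∈ (P i).C := fun i => (hpl p (T.σ i) (P i)).2.1
    have hn2 : ∀ i, ‖(P i).φ ⟨e', h2 i⟩‖ ≤ 1 := fun i => (hpl p (T.σ i) (P i)).2.2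
    have hprod : ∀ i, (P i).φ ⟨e, h1 i⟩ * (P i).φ ⟨e', h2 i⟩ = (N : ℂ_[p]) := by
      intro i
      rw [← map_mul]
      have h3 : (⟨e, h1 i⟩ * ⟨e', h2 i⟩ : (P i).C) = (N : (P i).C) := by
        apply Subtype.ext
        rw [MulMemClass.coe_mul]
        simpa using hee
      rw [h3, map_natCast]
    have hN0 : (N : ℂ_[p]) ≠ 0 := Nat.cast_ne_zero.2 hN.ne'
    have hne : ∀ i, (P i).φ ⟨e, h1 i⟩ ≠ 0 := by
      intro i h0
      have h3 := hprod i
      rw [h0, zero_mul] at h3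
      exact hN0 h3.symm
    obtain ⟨r, hr, hr1, hrn⟩ := ad_NRL k k₁ Ω D v p T (by rw [hTj]; exact hov) P e h1 hne
    refine ⟨r, hr, fun hv => hr1 fun i => ?_, hrn⟩
    have hv1 : v.valuation k₁ (N : k₁) = 1 := by
      by_contra hc
      exact hv hc
    have hσN : ‖(N : ℂ_[p])‖ = 1 := by
      have := (valu_one hov (N : k₁)).1 hv1
      rwa [map_natCast] at this
    have hn12 : ‖(P i).φ ⟨e, h1 i⟩‖ * ‖(P i).φ ⟨e', h2 i⟩‖ = 1 := by
      rw [← norm_mul, hprod, hσN]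
    apply le_antisymm (hn1 i)
    calc (1 : ℝ) = ‖(P i).φ ⟨e, h1 i⟩‖ * ‖(P i).φ ⟨e', h2 i⟩‖ := hn12.symm
      _ ≤ ‖(P i).φ ⟨e, h1 i⟩‖ * 1 := mul_le_mul_of_nonneg_left (hn2 i) (norm_nonneg _)
      _ = ‖(P i).φ ⟨e, h1 i⟩‖ := mul_one _
  choose r hr0 hrS hr using hloc
  obtain ⟨I, hI, hIJ⟩ := ad_IDL k₁ S hSf r hr0 hrS
  obtain ⟨M, hM, r1, hr1, hMn⟩ := ad_CMF k₁ hfin I hI
  refine ad_NRK k k₁ Ω D e M hM r1 hr1 fun n hn => ?_
  obtain ⟨c, hc, g, hcg⟩ := real_kum all_KUM all_BOT D e he0 n hn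
  have hNc : Algebra.norm k₁ c ≠ 0 := by
    rw [Ne, Algebra.norm_eq_zero_iff]
    exact hc
  obtain ⟨t, ht⟩ := hMn n hn (Algebra.norm k₁ c) hNc
    (hIJ n hn _ hNc fun v => hr v n hn c g hc hcg)
  exact ⟨c, hc, g, hcg, t, ht⟩

theorem ad_nrdiv {k k₁ Ω : Type} [Field k] [Field k₁] [Algebra k₁ k] [FiniteDimensional k₁ k]
    [Field Ω] [Algebra k Ω] (D : Sec k Ω) (x e : LL D) (a : k) (ha : a ≠ 0)
    (h : e = algebraMap k (LL D) a * x) (he : NR D k₁ e) : NR D k₁ x := by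
  obtain ⟨r, hr, hn⟩ := he
  have hNa : Algebra.norm k₁ a ≠ 0 := by
    rw [Ne, Algebra.norm_eq_zero_iff]
    exact ha
  refine ⟨r / Algebra.norm k₁ a, div_ne_zero hr hNa, fun n hn' => ?_⟩
  obtain ⟨c, hc, g, hcg, t, ht⟩ := hn n hn'
  refine ⟨c / a, div_ne_zero hc ha, g, ?_, t, ?_⟩
  · have h1 : algebraMap k (LL D) a ≠ 0 := (_root_.map_ne_zero _).2 ha
    apply mul_left_cancel₀ h1
    rw [← h, hcg, map_div₀]
    field_simp
  · have h2 : Algebra.norm k₁ (c / a) * Algebra.norm k₁ a = Algebra.norm k₁ c := by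
      rw [← map_mul, div_mul_cancel₀ _ ha]
    rw [eq_div_of_mul_eq hNa h2, ht]
    ring

section

variable {k K kb Ω : Type} [Field k] [Field K] [Field kb] [Field Ω] [Algebra k K] [Algebra k kb]
  [Algebra kb Ω] [Algebra k Ω] [Algebra K Ω] [IsScalarTower k K Ω] [IsScalarTower k kb Ω]
  [Algebra.IsAlgebraic K Ω] [IsAlgClosure k kb]

/-- the places of the library for the section over `k` itself -/
theorem ad_topplace [NumberField k] [IsAlgClosed Ω] (s : (kb ≃ₐ[k] kb) →* (Ω ≃ₐ[K] Ω))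
    (hs : IsSection s) (x : LL (topD s hs)) (hx : Integral s (x : Ω)) (p : ℕ) [Fact p.Prime]
    (σ : k →+* ℂ_[p]) (P : Place (topD s hs) p σ) : ∃ h : x ∈ P.C, ‖P.φ ⟨x, h⟩‖ ≤ 1 := by
  refine asm_place s (topD s hs) (topE k kb Ω).toRingEquiv (fun y => topE_coe y) ?_ x hx p σ P
  intro g
  refine ⟨(AlgEquiv.autCongr (topE k kb Ω)).symm g, fun c => ?_, fun x => rfl⟩
  exact (topE k kb Ω).apply_symm_apply _

/-- an idele along `s` has rational norm classes -/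
theorem ad_norm [NumberField k] [IsAlgClosed Ω] (k₁ : Type) [Field k₁] [NumberField k₁]
    [Algebra k₁ k] [FiniteDimensional k₁ k] (hfin : Finite (RingOfIntegers k₁)ˣ)
    (s : (kb ≃ₐ[k] kb) →* (Ω ≃ₐ[K] Ω)) (hs : IsSection s) (x : Ω) (hx0 : x ≠ 0)
    (hx : ∀ g, s g x = x) (h1 : Adelic s x) (h2 : Adelic s x⁻¹) : NormRat k₁ s x := by
  have : CharZero Ω := charZero_of_injective_algebraMap (algebraMap k Ω).injective
  have hxD : x ∈ LL (topD s hs) := (top_mem s hs x).2 hx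
  set X : LL (topD s hs) := ⟨x, hxD⟩ with hX
  have hX0 : X ≠ 0 := fun h0 => hx0 (congrArg (fun z : LL (topD s hs) => (z : Ω)) h0)
  obtain ⟨m, hm, hmI⟩ := h1
  obtain ⟨m', hm', hmI'⟩ := h2
  have hee : ((m : LL (topD s hs)) * X) * ((m' : LL (topD s hs)) * X⁻¹) =
      ((m * m' : ℕ) : LL (topD s hs)) := by
    push_cast
    field_simp
  have hNR : NR (topD s hs) k₁ ((m : LL (topD s hs)) * X) := by
    refine ad_nri (topD s hs) hfin _ _ (m * m') (Nat.mul_pos hm hm') hee fun p _ σ P => ⟨?_, ?_⟩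
    · refine ad_topplace s hs _ ?_ p σ P
      have h3 : (((m : LL (topD s hs)) * X : LL (topD s hs)) : Ω) = (m : Ω) * x := by
        rw [MulMemClass.coe_mul]
        simp [hX]
      rw [h3]
      exact hmI
    · refine ad_topplace s hs _ ?_ p σ P
      have h3 : (((m' : LL (topD s hs)) * X⁻¹ : LL (topD s hs)) : Ω) = (m' : Ω) * x⁻¹ := by
        rw [MulMemClass.coe_mul]
        simp [hX]
      rw [h3]
      exact hmI'
  have hmk : (m : k) ≠ 0 := Nat.cast_ne_zero.2 hm.ne'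
  have h4 : NR (topD s hs) k₁ X :=
    ad_nrdiv (topD s hs) X _ (m : k) hmk (by rw [map_natCast]) hNR
  exact (top_nr k₁ s hs X).1 h4

/-- ideles at `[k : k₁]` points make the section geometric -/
theorem ad_sub [NumberField k] [IsAlgClosed Ω] (k₁ : Type) [Field k₁] [NumberField k₁]
    [Algebra k₁ k] [FiniteDimensional k₁ k] (hfin : Finite (RingOfIntegers k₁)ˣ)
    (htr : ∃ t : K, Transcendental k t ∧ Algebra.IsAlgebraic (IntermediateField.adjoin k {t}) K)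
    (s : (kb ≃ₐ[k] kb) →* (Ω ≃ₐ[K] Ω)) (hs : IsSection s) (f : Ω) (hf : ∀ g, s g f = f)
    (hfk : f ∉ (algebraMap k Ω).range) (A : Finset k₁) (hA : A.card = Module.finrank k₁ k)
    (h : ∀ c ∈ A, Adelic s (f - algebraMap k Ω (algebraMap k₁ k c)) ∧
      Adelic s (f - algebraMap k Ω (algebraMap k₁ k c))⁻¹) : IsGeometric s := by
  have hk : (⊤ : IntermediateField ℚ k).FG := by
    rw [IntermediateField.fg_top_iff]
    infer_instance
  refine top_main all_ONE all_IFD all_UNI all_ALG hk k₁ htr s hs ⟨f, hf, hfk, A, hA, fun c hc => ?_⟩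
  refine ad_norm k₁ hfin s hs _ ?_ ?_ (h c hc).1 (h c hc).2
  · intro h0
    exact hfk ⟨_, (sub_eq_zero.1 h0).symm⟩
  · intro g
    rw [map_sub, hf]
    congr 1
    rw [IsScalarTower.algebraMap_apply k K Ω]
    exact (s g).commutes _

end

end Pool.Agent.Helper27.AD
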