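import Pool.Agent.Helper27.AD.Asm

/-! # AdelicSections: totally real fields -/

set_option autoImplicit false

open scoped Classical

namespace Pool.Agent.Helper27.AD

open Pool.Agent.Helper14.BSC Pool.Agent.Helper13.ZL NumberField Pool.Agent.Helper14.BSC.Gen
open Pool.Agent.Helper18.NF Polynomial

/-- the CM involution of `k(√d)` -/
theorem r3_cm {k kb : Type} [Field k] [CharZero k] [Field kb] [Algebra k kb] [IsAlgClosure k kb]
    (hreal : ∀ (φ : k →+* ℂ) (x : k), (starRingEnd ℂ) (φ x) = φ x) (φ₀ : k →+* ℂ) (d : k)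
    (hd : ∀ φ : k →+* ℂ, (φ d).re < 0) (δ : kb) (hδ : δ ^ 2 = algebraMap k kb d) :
    ∃ (κ : kb ≃ₐ[k] kb) (τ : (IntermediateField.adjoin k {δ}) ≃+* (IntermediateField.adjoin k {δ})),
      κ δ = -δ ∧ (∀ x, ((τ x : IntermediateField.adjoin k {δ}) : kb) = κ (x : kb)) ∧
      ∀ (φ : IntermediateField.adjoin k {δ} →+* ℂ) (x : IntermediateField.adjoin k {δ}),
        φ (τ x) = (starRingEnd ℂ) (φ x) := by
  have hneg : ∀ (z : ℂ) (φ : k →+* ℂ), z ^ 2 = φ d → (starRingEnd ℂ) z = -z := by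
    intro z φ hz
    have h1 : ((starRingEnd ℂ) z - z) * ((starRingEnd ℂ) z + z) = 0 := by
      have h2 : ((starRingEnd ℂ) z) ^ 2 = φ d := by rw [← map_pow, hz, hreal]
      linear_combination h2 - hz
    rcases mul_eq_zero.1 h1 with h2 | h2
    · exfalso
      have h3 : z.im = 0 := Complex.conj_eq_iff_im.1 (sub_eq_zero.1 h2)
      have h4 := hd φ
      rw [← hz, pow_two, Complex.mul_re, h3] at h4
      nlinarith [sq_nonneg z.re]
    · exact eq_neg_of_add_eq_zero_left h2
  obtain ⟨ι, κ, hι, hκ⟩ := real_conj k kb φ₀ (hreal φ₀)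
  have hκδ : κ δ = -δ := by
    apply ι.injective
    rw [hκ, map_neg]
    exact hneg _ φ₀ (by rw [← map_pow, hδ, hι])
  set k' : IntermediateField k kb := IntermediateField.adjoin k {δ} with hk'
  have hmap : k'.map (κ : kb ≃ₐ[k] kb).toAlgHom = k' := by
    rw [hk', IntermediateField.adjoin_map, Set.image_singleton]
    show IntermediateField.adjoin k {κ δ} = IntermediateField.adjoin k {δ}
    rw [hκδ]
    apply le_antisymm
    · rw [IntermediateField.adjoin_simple_le_iff]
      exact neg_mem (IntermediateField.mem_adjoin_simple_self k δ)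
    · rw [IntermediateField.adjoin_simple_le_iff]
      have := neg_mem (IntermediateField.mem_adjoin_simple_self k (-δ))
      rwa [neg_neg] at this
  let τ0 : k' ≃ₐ[k] k' := (IntermediateField.intermediateFieldMap κ k').trans
    (IntermediateField.equivOfEq hmap)
  have hτ0 : ∀ x, ((τ0 x : k') : kb) = κ (x : kb) := fun x => rfl
  refine ⟨κ, τ0.toRingEquiv, hκδ, hτ0, ?_⟩
  intro φ x
  show φ (τ0 x) = _
  obtain ⟨x, hx⟩ := x
  induction hx using IntermediateField.adjoin_induction with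
  | mem y hy =>
    have hy' : y = δ := hy
    subst hy'
    have h1 : τ0 ⟨y, IntermediateField.subset_adjoin k {y} hy⟩ =
        -⟨y, IntermediateField.subset_adjoin k {y} hy⟩ := by
      apply Subtype.ext
      rw [hτ0]
      exact hκδ
    rw [h1, map_neg]
    refine (hneg _ (φ.comp (algebraMap k k')) ?_).symm
    rw [← map_pow]
    show φ _ = φ _
    congr 1
    apply Subtype.ext
    exact hδ
  | algebraMap c =>
    have h1 : τ0 (algebraMap k k' c) = algebraMap k k' c := τ0.commutes c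
    have h2 := hreal (φ.comp (algebraMap k k')) c
    exact (congrArg φ h1).trans h2.symm
  | add a b ha hb iha ihb =>
    have h1 : (⟨a + b, add_mem ha hb⟩ : k') = ⟨a, ha⟩ + ⟨b, hb⟩ := rfl
    rw [h1, map_add, map_add, map_add, map_add, iha, ihb]
  | inv a ha iha =>
    have h1 : (⟨a⁻¹, inv_mem ha⟩ : k') = (⟨a, ha⟩ : k')⁻¹ := rfl
    rw [h1, map_inv₀, map_inv₀, map_inv₀, map_inv₀, iha]
  | mul a b ha hb iha ihb =>
    have h1 : (⟨a * b, mul_mem ha hb⟩ : k') = ⟨a, ha⟩ * ⟨b, hb⟩ := rfl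
    rw [h1, map_mul, map_mul, map_mul, map_mul, iha, ihb]

/-- the same with a name for the field -/
theorem r3_cm' {k kb : Type} [Field k] [CharZero k] [Field kb] [Algebra k kb] [IsAlgClosure k kb]
    (hreal : ∀ (φ : k →+* ℂ) (x : k), (starRingEnd ℂ) (φ x) = φ x) (φ₀ : k →+* ℂ) (d : k)
    (hd : ∀ φ : k →+* ℂ, (φ d).re < 0) (δ : kb) (hδ : δ ^ 2 = algebraMap k kb d)
    (k' : IntermediateField k kb) (hk' : k' = IntermediateField.adjoin k {δ}) :
    ∃ (κ : kb ≃ₐ[k] kb) (τ : k' ≃+* k'),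
      κ δ = -δ ∧ (∀ x, ((τ x : k') : kb) = κ (x : kb)) ∧
      ∀ (φ : k' →+* ℂ) (x : k'), φ (τ x) = (starRingEnd ℂ) (φ x) := by
  subst hk'
  exact r3_cm hreal φ₀ d hd δ hδ

end Pool.Agent.Helper27.AD
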