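import Pool.Agent.Helper13.ZL.Stmts
import Pool.Agent.Helper14.BSC.TopKb

/-!
# Adelic values of one function over totally real fields: exact statements of the modules
(MP_8312c9_nt, AdelicSections).  Proofs: /team-store/h27_ad_blueprint.md
-/

set_option autoImplicit false

open scoped Classical

namespace Pool.Agent.Helper27.AD

open Pool.Agent.Helper14.BSC Pool.Agent.Helper13.ZL NumberField

/-! ## A. Finite places -/

/-- `W` is a valuation ring of `Ω` above the absolute value `‖ι ·‖` of the algebraic closure of `k`, stable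
under the decomposition group of this absolute value -/
structure WOver {k Ω : Type} [Field k] [Field Ω] [Algebra k Ω] (D : Sec k Ω) {p : ℕ} [Fact p.Prime]
    (ι : Acl k Ω →+* ℂ_[p]) (W : ValuationSubring Ω) : Prop where
  ov : ∀ c : Acl k Ω, (c : Ω) ∈ W ↔ ‖ι c‖ ≤ 1
  stb : ∀ g : GG k Ω, (∀ c, ‖ι (g c)‖ = ‖ι c‖) → ∀ x : Ω, D.s g x ∈ W ↔ x ∈ W

/-- WPL: an element of the fixed field which lies in such a `W` has a value of norm `≤ 1` at every place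
of the library over the same embedding of `k`. -/
def ST_WPL : Prop :=
  ∀ (k Ω : Type) [Field k] [NumberField k] [Field Ω] [Algebra k Ω] [IsAlgClosed Ω] (D : Sec k Ω)
    (p : ℕ) [Fact p.Prime] (ι : Acl k Ω →+* ℂ_[p]) (W : ValuationSubring Ω), WOver D ι W →
    ∀ (P : Place D p (ι.comp (algebraMap k (Acl k Ω)))) (f : LL D), (f : Ω) ∈ W →
      ∃ h : f ∈ P.C, ‖P.φ ⟨f, h⟩‖ ≤ 1

/-- VALB: valuations of the classes of `x` at a place where `x` has a finite nonzero value. -/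
def ST_VALB : Prop :=
  ∀ (k Ω : Type) [Field k] [NumberField k] [Field Ω] [Algebra k Ω] [IsAlgClosed Ω] (D : Sec k Ω)
    (v : Pl k) (p : ℕ) [Fact p.Prime] (σ : k →+* ℂ_[p]) (P : Place D p σ), OverPl v σ →
    ∀ x : P.C, P.φ x ≠ 0 → ∃ r : k, r ≠ 0 ∧ ∀ N : ℕ, 0 < N → ∀ (b : k) (g : LL D),
      (x : LL D) = algebraMap k (LL D) b * g ^ N → ∃ t : k, v.valuation k (b / r * t ^ N) = 1

/-! ## B. Algebraic number theory -/

/-- IDL: local data for the valuations give ideals. -/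
def ST_IDL : Prop :=
  ∀ (k : Type) [Field k] [NumberField k] (S : Set (Pl k)), S.Finite → ∀ r : Pl k → k,
    (∀ v, r v ≠ 0) → (∀ v, v ∉ S → r v = 1) →
    ∃ I : FractionalIdeal (nonZeroDivisors (RingOfIntegers k)) k, I ≠ 0 ∧
      ∀ n : ℕ, 0 < n → ∀ b : k, b ≠ 0 → (∀ v : Pl k, ∃ t : k, v.valuation k (b / r v * t ^ n) = 1) →
        ∃ J : FractionalIdeal (nonZeroDivisors (RingOfIntegers k)) k,
          FractionalIdeal.spanSingleton (nonZeroDivisors (RingOfIntegers k)) b = I * J ^ n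

/-- CMU: classes with a given divisor in a CM field. -/
def ST_CMU : Prop :=
  ∀ (k : Type) [Field k] [NumberField k] (τ : k ≃+* k),
    (∀ (φ : k →+* ℂ) (x : k), φ (τ x) = (starRingEnd ℂ) (φ x)) →
    ∀ I : FractionalIdeal (nonZeroDivisors (RingOfIntegers k)) k, I ≠ 0 →
    ∃ M : ℕ, 0 < M ∧ ∃ r : k, r ≠ 0 ∧ ∀ n : ℕ, 0 < n → ∀ b : k, b ≠ 0 →
      (∃ J : FractionalIdeal (nonZeroDivisors (RingOfIntegers k)) k,
        FractionalIdeal.spanSingleton (nonZeroDivisors (RingOfIntegers k)) b = I * J ^ n) →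
      ∃ t : k, (b / τ b) ^ M = r * t ^ n

/-! ## C. The core argument over the CM field -/

/-- COR: `ε ε' = N²`, both integral at all finite places, CM symmetry of the classes of `ε`:
then a power of `ε` is `r` times an `n`-th power, for all `n`. -/
def ST_COR : Prop :=
  ∀ (k Ω : Type) [Field k] [NumberField k] [Field Ω] [Algebra k Ω] [IsAlgClosed Ω] (D : Sec k Ω)
    (τ : k ≃+* k), (∀ (φ : k →+* ℂ) (x : k), φ (τ x) = (starRingEnd ℂ) (φ x)) →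
    ∀ (e e' : LL D) (N : ℕ), 0 < N → e * e' = (N : LL D) ^ 2 →
    (∀ (v : Pl k) (p : ℕ) [Fact p.Prime] (σ : k →+* ℂ_[p]) (E₀ : IntermediateField ℚ_[p] ℂ_[p]),
      OverPl v σ → FiniteDimensional ℚ_[p] E₀ → (∀ x, σ x ∈ E₀) → ∃ P : Place D p σ,
        (∃ h : e ∈ P.C, ‖P.φ ⟨e, h⟩‖ ≤ 1) ∧ (∃ h : e' ∈ P.C, ‖P.φ ⟨e', h⟩‖ ≤ 1)) →
    (∀ n : ℕ, 0 < n → ∀ (c : k) (g : LL D), e = algebraMap k (LL D) c * g ^ n →
      ∃ a : k, a ≠ 0 ∧ c * τ c = (N : k) ^ 2 * a ^ n) →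
    ∃ M : ℕ, 0 < M ∧ ∃ r : k, r ≠ 0 ∧ ∀ n : ℕ, 0 < n → ∃ t : LL D,
      e ^ M = algebraMap k (LL D) r * t ^ n

/-! ## D. The theorem over arbitrary closures `kb`, `Ω` -/

open Pool.Agent.Helper14.BSC.Gen

/-- `f` is integral at all finite places along `s` -/
def Integral {k K kb Ω : Type} [Field k] [Field K] [Field kb] [Field Ω] [Algebra k kb] [Algebra kb Ω]
    [Algebra K Ω] (s : (kb ≃ₐ[k] kb) →* (Ω ≃ₐ[K] Ω)) (f : Ω) : Prop :=
  ∀ (l : ℕ) [Fact l.Prime] (ι : kb →+* ℂ_[l]), ∃ W : ValuationSubring Ω,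
    (∀ c : kb, algebraMap kb Ω c ∈ W ↔ ‖ι c‖ ≤ 1) ∧
    (∀ g : kb ≃ₐ[k] kb, (∀ c : kb, ‖ι (g c)‖ = ‖ι c‖) → ∀ x : Ω, s g x ∈ W ↔ x ∈ W) ∧ f ∈ W

/-- `f` is bounded at all real places along `s`: `N² - f²` is a square in the fixed field of `s τ`
for all complex conjugations `τ` of `kb` over `k` -/
def Bounded {k K kb Ω : Type} [Field k] [Field K] [Field kb] [Field Ω] [Algebra k kb]
    [Algebra K Ω] (s : (kb ≃ₐ[k] kb) →* (Ω ≃ₐ[K] Ω)) (f : Ω) : Prop :=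
  ∀ (ι : kb →+* ℂ) (τ : kb ≃ₐ[k] kb), (∀ z : kb, ι (τ z) = (starRingEnd ℂ) (ι z)) →
    ∃ (N : ℕ) (y : Ω), s τ y = y ∧ y ^ 2 = (N : Ω) ^ 2 - f ^ 2

/-- REAL: a bounded function gives `f² - N² = d y²` with `d` totally negative. -/
def ST_REAL : Prop :=
  ∀ (k K kb Ω : Type) [Field k] [NumberField k] [Field K] [Field kb] [Field Ω] [Algebra k K]
    [Algebra k kb] [Algebra kb Ω] [Algebra k Ω] [Algebra K Ω] [IsScalarTower k K Ω]
    [IsScalarTower k kb Ω] [Algebra.IsAlgebraic K Ω] [IsAlgClosure k kb] [IsAlgClosed Ω]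
    (s : (kb ≃ₐ[k] kb) →* (Ω ≃ₐ[K] Ω)), IsSection s →
    (∀ (φ : k →+* ℂ) (x : k), (starRingEnd ℂ) (φ x) = φ x) →
    ∀ f : Ω, (∀ g, s g f = f) → f ∉ (algebraMap k Ω).range → Bounded s f →
    ∃ N : ℕ, 0 < N ∧ ∃ d : k, d ≠ 0 ∧ (∀ φ : k →+* ℂ, (φ d).re < 0) ∧
      ∃ y : Ω, y ≠ 0 ∧ (∀ g, s g y = y) ∧ f ^ 2 - (N : Ω) ^ 2 = algebraMap k Ω d * y ^ 2

/-- CNVA: for a geometric section some nonconstant function is integral and bounded. -/
def ST_CNVA : Prop :=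
  ∀ (k K kb Ω : Type) [Field k] [CharZero k] [Field K] [Field kb] [Field Ω] [Algebra k K]
    [Algebra k kb] [Algebra kb Ω] [Algebra k Ω] [Algebra K Ω] [IsScalarTower k K Ω]
    [IsScalarTower k kb Ω] [Algebra.IsAlgebraic K Ω] [IsAlgClosure k kb] [IsAlgClosed Ω]
    (s : (kb ≃ₐ[k] kb) →* (Ω ≃ₐ[K] Ω)), IsSection s → IsGeometric (k := k) (K := K) s →
    ∃ f : K, f ∉ (algebraMap k K).range ∧ Integral s (algebraMap K Ω f) ∧
      Bounded s (algebraMap K Ω f)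

end Pool.Agent.Helper27.AD
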