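import Pool.Agent.Helper27.AD.Stmts

/-!
# Adelic values of one function: exact statements, part 2 (all number fields; finite unit groups)
-/

set_option autoImplicit false

open scoped Classical

namespace Pool.Agent.Helper27.AD

open Pool.Agent.Helper14.BSC Pool.Agent.Helper13.ZL NumberField Pool.Agent.Helper14.BSC.Gen

/-- `f` is a finite adele along `s`: a positive integer multiple of `f` is integral at all finite places -/
def Adelic {k K kb Ω : Type} [Field k] [Field K] [Field kb] [Field Ω] [Algebra k kb] [Algebra kb Ω]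
    [Algebra K Ω] (s : (kb ≃ₐ[k] kb) →* (Ω ≃ₐ[K] Ω)) (f : Ω) : Prop :=
  ∃ m : ℕ, 0 < m ∧ Integral s ((m : Ω) * f)

/-- CMF: classes with a given divisor in a number field with finite unit group. -/
def ST_CMF : Prop :=
  ∀ (k : Type) [Field k] [NumberField k], Finite (RingOfIntegers k)ˣ →
    ∀ I : FractionalIdeal (nonZeroDivisors (RingOfIntegers k)) k, I ≠ 0 →
    ∃ M : ℕ, 0 < M ∧ ∃ r : k, r ≠ 0 ∧ ∀ n : ℕ, 0 < n → ∀ b : k, b ≠ 0 →
      (∃ J : FractionalIdeal (nonZeroDivisors (RingOfIntegers k)) k,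
        FractionalIdeal.spanSingleton (nonZeroDivisors (RingOfIntegers k)) b = I * J ^ n) →
      ∃ t : k, b ^ M = r * t ^ n

/-- DVI: an element of the fixed field which is integral up to an integer, together with its inverse, has
classes with a given divisor. -/
def ST_DVI : Prop :=
  ∀ (k Ω : Type) [Field k] [NumberField k] [Field Ω] [Algebra k Ω] [IsAlgClosed Ω] (D : Sec k Ω)
    (e e' : LL D) (N : ℕ), 0 < N → e * e' = (N : LL D) →
    (∀ (v : Pl k) (p : ℕ) [Fact p.Prime] (σ : k →+* ℂ_[p]) (E₀ : IntermediateField ℚ_[p] ℂ_[p]),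
      OverPl v σ → FiniteDimensional ℚ_[p] E₀ → (∀ x, σ x ∈ E₀) → ∃ P : Place D p σ,
        (∃ h : e ∈ P.C, ‖P.φ ⟨e, h⟩‖ ≤ 1) ∧ (∃ h : e' ∈ P.C, ‖P.φ ⟨e', h⟩‖ ≤ 1)) →
    ∃ I : FractionalIdeal (nonZeroDivisors (RingOfIntegers k)) k, I ≠ 0 ∧
      ∀ n : ℕ, 0 < n → ∀ (c : k) (g : LL D), c ≠ 0 → e = algebraMap k (LL D) c * g ^ n →
        ∃ J : FractionalIdeal (nonZeroDivisors (RingOfIntegers k)) k,
          FractionalIdeal.spanSingleton (nonZeroDivisors (RingOfIntegers k)) c = I * J ^ n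

/-- CNVB: for a geometric section there is a nonconstant `f` with `f` integral and bounded and
`j / (f - j)` integral for every positive integer `j`. -/
def ST_CNVB : Prop :=
  ∀ (k K kb Ω : Type) [Field k] [CharZero k] [Field K] [Field kb] [Field Ω] [Algebra k K]
    [Algebra k kb] [Algebra kb Ω] [Algebra k Ω] [Algebra K Ω] [IsScalarTower k K Ω]
    [IsScalarTower k kb Ω] [Algebra.IsAlgebraic K Ω] [IsAlgClosure k kb] [IsAlgClosed Ω]
    (s : (kb ≃ₐ[k] kb) →* (Ω ≃ₐ[K] Ω)), IsSection s → IsGeometric (k := k) (K := K) s →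
    ∃ f : K, f ∉ (algebraMap k K).range ∧ Integral s (algebraMap K Ω f) ∧
      Bounded s (algebraMap K Ω f) ∧
      ∀ j : ℕ, 0 < j → Integral s (algebraMap K Ω ((j : K) / (f - (j : K))))

end Pool.Agent.Helper27.AD
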