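import Pool.Agent.Helper27.AD.Stmts2

/-!
# Adelic values of one function: exact statements, part 3 (norms to a subfield with finite unit group)
-/

set_option autoImplicit false

open scoped Classical

namespace Pool.Agent.Helper27.AD

open Pool.Agent.Helper14.BSC Pool.Agent.Helper13.ZL NumberField

/-- NRL: valuations of the norms to `k₁` of the classes of `x` at a place of `k₁` (cf. nrq_local). -/
def ST_NRL : Prop :=
  ∀ (k k₁ Ω : Type) [Field k] [NumberField k] [Field k₁] [NumberField k₁] [Algebra k₁ k]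
    [FiniteDimensional k₁ k] [Field Ω] [Algebra k Ω] [IsAlgClosed Ω] (D : Sec k Ω)
    (v : Pl k₁) (p : ℕ) [Fact p.Prime] (T : TS k k₁ p), OverPl v T.j →
    ∀ (P : ∀ i, Place D p (T.σ i)) (x : LL D) (hx : ∀ i, x ∈ (P i).C),
      (∀ i, (P i).φ ⟨x, hx i⟩ ≠ 0) →
      ∃ r : k₁, r ≠ 0 ∧ ((∀ i, ‖(P i).φ ⟨x, hx i⟩‖ = 1) → r = 1) ∧
        ∀ n : ℕ, 0 < n → ∀ (c : k) (g : LL D), c ≠ 0 → x = algebraMap k (LL D) c * g ^ n →
          ∃ t : k₁, v.valuation k₁ (Algebra.norm k₁ c / r * t ^ n) = 1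

/-- NRK: if a power of the norm class is rational then the norm class is rational (pigeonhole on the
`M`-th roots of `r`). -/
def ST_NRK : Prop :=
  ∀ (k k₁ Ω : Type) [Field k] [CharZero k] [Field k₁] [Algebra k₁ k] [FiniteDimensional k₁ k]
    [Field Ω] [Algebra k Ω] [IsAlgClosed Ω] (D : Sec k Ω) (x : LL D) (M : ℕ), 0 < M →
    ∀ r : k₁, r ≠ 0 →
    (∀ n : ℕ, 0 < n → ∃ c : k, c ≠ 0 ∧ ∃ g : LL D, x = algebraMap k (LL D) c * g ^ n ∧
      ∃ t : k₁, Algebra.norm k₁ c ^ M = r * t ^ n) →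
    NR D k₁ x

end Pool.Agent.Helper27.AD
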